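import Pool.Agent.H500.AS.Stm
import Pool.Graph.R_pool_sql_team_seeded_3997aac3.Q149.AR.VA

/-! # Project AS (helper500), PART 2: the congruence subgroup for a modulus prime to `p` -/

set_option autoImplicit false
set_option linter.unusedSectionVars false
set_option linter.deprecated false

namespace Pool.Agent.H685.AS.VAp

open NumberField IsDedekindDomain Pool.Agent.Q92.AR Pool.Agent.Q149.AR
open Pool.Agent.H500.AS

/-- part 2 of project AS -/
theorem main : Pool.Agent.H500.AS.S_NB → Pool.Agent.H500.AS.S_VAp := by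
  intro hNB F E _ _ _ _ _ _ σ hσ p hp hU N0 hN0 hpN0
  classical
  have hfin : Finite (E ≃ₐ[F] E) := inferInstance
  have hσ' : ∀ g : E ≃ₐ[F] E, ∃ i : ℕ, σ ^ i = g := fun g => by
    have h1 := hσ g
    rw [← mem_powers_iff_mem_zpowers] at h1
    exact h1
  obtain ⟨b, hb, hi, ⟨d, hdp, hd⟩, t, ht, e, hep, he⟩ := hNB F E p hp hU
  have hd0 : d ≠ 0 := by
    rintro rfl
    exact hdp (dvd_zero p)
  have he0 : e ≠ 0 := by
    rintro rfl
    exact hep (dvd_zero p)
  obtain ⟨q, hq2, hqp⟩ : ∃ q : ℕ, 2 ≤ q ∧ ¬ p ∣ q := by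
    by_cases h2 : p = 2
    · subst h2
      exact ⟨3, by norm_num, by norm_num⟩
    · refine ⟨2, le_rfl, fun h => h2 ?_⟩
      exact (Nat.prime_dvd_prime_iff_eq hp Nat.prime_two).1 h
  have hq0 : q ≠ 0 := by omega
  set N : ℕ := q * N0 * d * e with hNdef
  have hN1 : N ≠ 0 := by positivity
  have hpN : ¬ p ∣ N := by
    rw [hNdef]
    intro h
    rcases hp.dvd_mul.1 h with h | h
    · rcases hp.dvd_mul.1 h with h | h
      · rcases hp.dvd_mul.1 h with h | h
        · exact hqp h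
        · exact hpN0 h
      · exact hdp h
    · exact hep h
  have hN2 : 2 ≤ N := by
    have h1 : q ∣ N := ⟨N0 * d * e, by rw [hNdef]; ring⟩
    exact hq2.trans (Nat.le_of_dvd (Nat.pos_of_ne_zero hN1) h1)
  have hdN : d ∣ N := ⟨q * N0 * e, by rw [hNdef]; ring⟩
  have h : Dat b N := ⟨hfin, hb, hi, hN2, fun x hx => smul_RR_le_MM b hd hdN hx⟩
  have htN : (N : E) * t ∈ RR E N := by
    apply mem_RR_of_isIntegral
    have h1 : (N : E) * t = ((q * N0 * d : ℕ) : ℤ) * ((e : E) * t) := by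
      rw [hNdef]; push_cast; ring
    rw [h1]
    exact (isIntegral_algebraMap (x := ((q * N0 * d : ℕ) : ℤ))).mul he
  refine ⟨N ^ 2, N ^ 3, pow_ne_zero _ hN1, pow_ne_zero _ hN1,
    fun hh => hpN (hp.dvd_of_dvd_pow hh), ?_, pow_dvd_pow N (by norm_num), ⟨2, ?_⟩,
    VV h 2 two_ne_zero, ?_, ?_, ?_, ?_⟩
  · exact (Dvd.intro (q * d * e) (by rw [hNdef]; ring) : N0 ∣ N).trans (dvd_pow_self N two_ne_zero)
  · rw [← pow_mul]
    exact pow_dvd_pow N (by norm_num)
  · intro x hx
    exact VV_map h hx σ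
  · rintro x ⟨m, hm, hx⟩
    rw [Cong_pow_iff hN1 two_ne_zero]
    exact ⟨m, h.sub hm, hx⟩
  · intro x hx
    rw [Cong_pow_iff hN1 three_ne_zero] at hx
    obtain ⟨r, hr, hx⟩ := hx
    exact ⟨(N : E) * r, h.hR r hr, by rw [hx]; ring⟩
  · intro x hx
    -- two steps
    obtain ⟨y1, hy1, hz1⟩ := step h hσ' le_rfl hx (prod_map_div σ x)
    obtain ⟨z1, hz1def⟩ : ∃ z1 : Eˣ, z1 = x / y1 := ⟨_, rfl⟩
    have e1 : Units.map (σ : E →* E) x / x * y1 / Units.map (σ : E →* E) y1 =
        Units.map (σ : E →* E) z1 / z1 := by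
      rw [hz1def, map_div]
      exact grp_lemma _ _ _ _
    rw [e1] at hz1
    obtain ⟨y2, hy2, hz2⟩ := step h hσ' (by norm_num) hz1 (prod_map_div σ z1)
    obtain ⟨z, hzdef⟩ : ∃ z : Eˣ, z = z1 / y2 := ⟨_, rfl⟩
    have e2 : Units.map (σ : E →* E) z1 / z1 * y2 / Units.map (σ : E →* E) y2 =
        Units.map (σ : E →* E) z / z := by
      rw [hzdef, map_div]
      exact grp_lemma _ _ _ _
    rw [e2] at hz2
    -- `g z / z ∈ V_4` for all `g`
    have hall : ∀ i : ℕ, Units.map ((σ ^ i : E ≃ₐ[F] E) : E →* E) z / z ∈ VV h 4 (by norm_num) := by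
      intro i
      induction i with
      | zero =>
        have : Units.map (((σ ^ 0 : E ≃ₐ[F] E)) : E →* E) z = z := by
          ext; rfl
        rw [this, div_self']
        exact one_mem _
      | succ i ih =>
        have h1 : Units.map (((σ ^ (i + 1) : E ≃ₐ[F] E)) : E →* E) z / z =
            Units.map (σ : E →* E) (Units.map (((σ ^ i : E ≃ₐ[F] E)) : E →* E) z / z) *
              (Units.map (σ : E →* E) z / z) := by
          rw [map_div]
          have h2 : Units.map (((σ ^ (i + 1) : E ≃ₐ[F] E)) : E →* E) z =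
              Units.map (σ : E →* E) (Units.map (((σ ^ i : E ≃ₐ[F] E)) : E →* E) z) := by
            ext
            change (σ ^ (i + 1)) (z : E) = σ ((σ ^ i) (z : E))
            rw [pow_succ', AlgEquiv.mul_apply]
          rw [h2, div_mul_div_cancel]
        rw [h1]
        exact mul_mem (VV_map h ih σ) hz2
    have hall' : ∀ g : E ≃ₐ[F] E, ∃ m ∈ MM b N, g (z : E) = (z : E) * (1 + (N : E) ^ 4 * m) := by
      intro g
      obtain ⟨i, rfl⟩ := hσ' g
      obtain ⟨m, hm, e⟩ := hall i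
      refine ⟨m, hm, ?_⟩
      rw [Units.val_div_eq_div_val, div_eq_iff z.ne_zero] at e
      change (σ ^ i) (z : E) = _ at e
      rw [e]
      ring
    choose m hm hgz using hall'
    -- the element of `F`
    set c0 : F := Algebra.trace F E (t * z) with hc0
    have hc1 : algebraMap F E c0 = (z : E) * (1 + (N : E) ^ 2 * ((N : E) * ∑ g : E ≃ₐ[F] E, g ((N : E) * t) * m g)) := by
      rw [hc0, trace_eq_sum_automorphisms]
      have h1 : ∑ g : E ≃ₐ[F] E, g t = 1 := by
        rw [← trace_eq_sum_automorphisms, ht, map_one]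
      have h2 : ∀ g : E ≃ₐ[F] E, g (t * z) = (z : E) * g t + (z : E) * ((N : E) ^ 2 * ((N : E) * (g ((N : E) * t) * m g))) := by
        intro g
        rw [map_mul, hgz g, map_mul, map_natCast]
        ring
      rw [Finset.sum_congr rfl fun g _ => h2 g, Finset.sum_add_distrib, ← Finset.mul_sum, h1, ← Finset.mul_sum,
        ← Finset.mul_sum, ← Finset.mul_sum]
      ring
    have hm' : (N : E) * ∑ g : E ≃ₐ[F] E, g ((N : E) * t) * m g ∈ MM b N :=
      h.hR _ ((RR E N).sum_mem fun g _ => (RR E N).mul_mem (map_mem_RR htN g) (h.sub (hm g)))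
    obtain ⟨-, hv0⟩ := h.inv two_ne_zero hm'
    have hc00 : c0 ≠ 0 := by
      intro h0
      rw [h0, map_zero] at hc1
      exact mul_ne_zero z.ne_zero hv0 hc1.symm
    refine ⟨Units.mk0 c0 hc00, ?_⟩
    have e3 : x / up F E (Units.mk0 c0 hc00) = y1 * y2 * (Units.mk0 _ hv0)⁻¹ := by
      have h1 : up F E (Units.mk0 c0 hc00) = z * Units.mk0 _ hv0 := by
        ext
        exact hc1
      rw [h1, hzdef, hz1def]
      exact grp_lemma2 _ _ _ _
    rw [e3]
    exact mul_mem (mul_mem hy1 (VV_anti h (by norm_num) hy2)) (inv_mem ⟨_, hm', rfl⟩)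

end Pool.Agent.H685.AS.VAp
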